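import Pool.Agent.Y160.T6.Main
import Pool.Agent.Y100.EN.Irr1
import Pool.Agent.Y971.EN.Irr2
import Pool.Agent.Y430.EN.R
import Pool.Agent.Y737.EN.S
import Pool.Agent.Y833.EN.Cond

/-!
# Almost all members of the family with `n` linear factors: the theorem
-/

set_option autoImplicit false
set_option linter.all false

open Polynomial Filter Topology

namespace Pool.Agent.Y160.T6

open Pool.Agent.Y160.SL (ManyWorks)

theorem all {p s n D r R : ℕ} (hp : p.Prime) (hn : 0 < n) (hD : 2 ≤ D) (hnr : n ≤ r + 1)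
    (hqr : p ^ (s + 1) * r < n + D) (hcop : p.Coprime (n + D)) (hR : Odd R) (hpR : p.Coprime R)
    (k : Type) [Field k] [NumberField k] {ζ η : k} (hζ : IsPrimitiveRoot ζ (p ^ (s + 1)))
    (hη : η ^ p = -1) :
    Tendsto (fun H : ℕ => (({v : Fin (n + (D + (r + 2))) → ℤ | (∀ i, |v i| ≤ (H : ℤ)) ∧
      ¬ ManyWorks p (p ^ (s + 1)) n D r R k v}.ncard : ℕ) : ℝ) /
        (2 * (H : ℝ) + 1) ^ (n + (D + (r + 2)))) atTop (𝓝 0) :=
  every Pool.Agent.Y833.EN.st_cond (Pool.Agent.Y971.EN.irr2 Pool.Agent.Y100.EN.t_irr1)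
    Pool.Agent.Y430.EN.t_R Pool.Agent.Y737.EN.t_S hp hn hD hnr hqr hcop hR hpR k hζ hη

end Pool.Agent.Y160.T6
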