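import Pool.Agent.Y160.EN.StmA
import Pool.Agent.Y160.T4.Fam

/-!
# The conclusions for the surfaces `w ^ q = ∏ (x ^ M - ρ_i) u(x ^ M) + (b(x ^ M) + c t ^ (p ^ d)) ^ q`
-/

set_option autoImplicit false
set_option linter.all false

open Polynomial

namespace Pool.Agent.Y160.T6

open Pool.Agent.TH115.GD (IsTower)
open Pool.Agent.Y160.FT
open Pool.Agent.Y160.SL (Concl)
open Pool.Agent.Y160.T3 (ff_eq)
open Pool.Agent.Y160.EN (ManyD St_cond)

variable {E : Type} [Field E]

theorem conclM (hSt : St_cond) [PerfectField E] {p q s M n : ℕ} {ρ : Fin n → E} {u b : E[X]} {c ζ : E}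
    (hp : p.Prime) (hq : q = p ^ (s + 1)) (hζ : IsPrimitiveRoot ζ q) (hM : p.Coprime M)
    (h : ManyD p q M n ρ u b) (hc : c ≠ 0) {d : ℕ} (hd : 0 < d) {k' K F : Type} [Field k']
    [Algebra E k'] [Field K] [Algebra E[X] K] [IsFractionRing E[X] K] [Field F] [Algebra k'[X] F]
    [IsFractionRing k'[X] F] [Algebra K F] (hT : IsTower E k' K F) :
    Concl p q n E k' F
      (((expand E M ((∏ i, (X - C (ρ i))) * u)).map C +
        ((expand E M b).map C + C (C c * X ^ (p ^ d))) ^ q).map (algebraMap E[X] K)) := by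
  obtain ⟨l, rfl⟩ : ∃ l, d = l + 1 := ⟨d - 1, by omega⟩
  have hM0 : 0 < M := by
    rcases Nat.eq_zero_or_pos M with h | h
    · rw [h, Nat.coprime_zero_right] at hM
      exact absurd hM hp.one_lt.ne'
    · exact h
  have hC := hSt E p q s M n l ρ u b c hp hq hM hc h
  have hinj : ∀ i j : Fin n, ρ i = ρ j → i = j := by
    intro i j hij
    by_contra hne
    refine h.tR i (fun _ => 1) 0 ?_
    rw [zero_pow hp.ne_zero, Finset.prod_eq_zero (Finset.mem_erase.2 ⟨Ne.symm hne, Finset.mem_univ j⟩),
      mul_zero]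
    rw [hij, sub_self, pow_one]
  have hdu : (expand E M u).natDegree = u.natDegree * M := natDegree_expand _ _
  have hdl : ∀ x : E, (expand E M (X - C x)).natDegree = M := fun x => by
    rw [natDegree_expand, natDegree_X_sub_C, one_mul]
  have hne : ∀ x : E, expand E M (X - C x) ≠ expand E M u := by
    intro x h0
    have h1 := congrArg natDegree h0
    rw [hdl, hdu] at h1
    have h2 : 2 * M ≤ u.natDegree * M := Nat.mul_le_mul h.ud le_rfl
    omega
  set G : Fin (n + 1) → E[X] := Fin.snoc (α := fun _ => E[X]) (fun i => expand E M (X - C (ρ i)))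
    (expand E M u) with hG
  have hGc : ∀ i : Fin n, G i.castSucc = expand E M (X - C (ρ i)) := fun i => by
    rw [hG]; exact Fin.snoc_castSucc (α := fun _ => E[X]) _ _ i
  have hGl : G (Fin.last n) = expand E M u := by
    rw [hG]; exact Fin.snoc_last (α := fun _ => E[X]) _ _
  obtain ⟨h1, h2, h3⟩ := conclA (F := F) (k' := k') (K := K) hT hp hq hζ hC.base
    (asm2 hp hq hζ hC) G
    (fun j => by
      refine Fin.lastCases ?_ (fun i => ?_) j
      · rw [hGl]; exact ⟨h.iu, h.um.expand hM0⟩
      · rw [hGc]; exact ⟨h.iρ i, (monic_X_sub_C _).expand hM0⟩)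
    (fun a b => by
      refine Fin.lastCases ?_ (fun i => ?_) a
      · refine Fin.lastCases ?_ (fun j => ?_) b
        · intro _; rfl
        · intro h0
          rw [hGl, hGc] at h0
          exact absurd h0.symm (hne _)
      · refine Fin.lastCases ?_ (fun j => ?_) b
        · intro h0
          rw [hGl, hGc] at h0
          exact absurd h0 (hne _)
        · intro h0
          rw [hGc, hGc] at h0
          have h1 := expand_injective hM0 h0
          have h2 : C (ρ i) = C (ρ j) := sub_right_injective h1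
          rw [hinj i j (C_injective h2)])
    (by
      rw [Fin.prod_univ_castSucc, hGl, map_mul, map_prod]
      congr 1
      exact Finset.prod_congr rfl fun i _ => (hGc i).symm)
  rw [ff_eq] at h1 h2 h3
  exact ⟨SL.tateAt_of h1, SL.shaTriv_of h2, h3⟩

end Pool.Agent.Y160.T6
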