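import Pool.Agent.Y160.T4.Pt

/-!
# Local tests: `p`-th powers modulo polynomials, and `P`-adic zeros
-/

set_option autoImplicit false
set_option linter.all false

open Polynomial

namespace Pool.Agent.Y160.T6

open Pool.Agent.Y160.T2 (vs res)
open Pool.Agent.Y160.T4 (Nn nn_mul nn_pow nn_C nn_congr cl cl_eq_one cl_pow cl_mul VG_pow one_of_cop
  pow_red)

section prime

variable {P : ℕ} [hP : Fact P.Prime]

/-- Hensel's lemma for a simple zero modulo `P`. -/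
theorem hensel_int {h : ℤ[X]} {γ : ZMod P} (h0 : (h.map (Int.castRingHom (ZMod P))).eval γ = 0)
    (h1 : (h.map (Int.castRingHom (ZMod P))).derivative.eval γ ≠ 0) :
    ∃ x : ℤ_[P], aeval x h = 0 ∧ PadicInt.toZMod x = γ := by
  obtain ⟨a, ha⟩ := ZMod.intCast_surjective γ
  have hto : ∀ x : ℤ, PadicInt.toZMod ((x : ℤ) : ℤ_[P]) = (x : ZMod P) := fun x => map_intCast _ x
  have hnorm : ∀ y : ℤ_[P], ‖y‖ < 1 ↔ PadicInt.toZMod y = 0 := by
    intro y
    rw [← PadicInt.mem_nonunits, ← RingHom.mem_ker, PadicInt.ker_toZMod]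
    rfl
  have hev : ∀ f : ℤ[X], PadicInt.toZMod (aeval ((a : ℤ) : ℤ_[P]) f) =
      (f.map (Int.castRingHom (ZMod P))).eval γ := by
    intro f
    have e1 : aeval ((a : ℤ) : ℤ_[P]) f = ((f.eval a : ℤ) : ℤ_[P]) := by
      rw [aeval_def, algebraMap_int_eq, ← eq_intCast (Int.castRingHom ℤ_[P]) a, eval₂_at_apply,
        eq_intCast]
    rw [e1, hto, ← ha, ← eq_intCast (Int.castRingHom (ZMod P)) a, eval_map_apply, eq_intCast]
  have e2 : ‖aeval ((a : ℤ) : ℤ_[P]) (derivative h)‖ = 1 := by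
    refine le_antisymm (PadicInt.norm_le_one _) (not_lt.1 fun h2 => ?_)
    rw [hnorm, hev, ← derivative_map] at h2
    exact h1 h2
  obtain ⟨x, hx, hxa, -⟩ := hensels_lemma (p := P) (R := ℤ) (F := h) (a := ((a : ℤ) : ℤ_[P])) (by
    have e1 : ‖aeval ((a : ℤ) : ℤ_[P]) h‖ < 1 := by rw [hnorm, hev, h0]
    rw [e2, one_pow]
    exact e1)
  refine ⟨x, hx, ?_⟩
  rw [e2, hnorm, map_sub, hto, ha, sub_eq_zero] at hxa
  exact hxa

/-- Powers of integers in a subfield of the field of the `P`-adic numbers. -/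
theorem int_pow {k : Type} [Field k] (σ : k →+* ℚ_[P]) {p : ℕ} (hp : 0 < p) {y : k} {z : ℤ}
    (h : y ^ p = (z : k)) : ∃ t : ZMod P, t ^ p = (z : ZMod P) := by
  obtain ⟨t, ht⟩ := pow_red σ hp (y := y) (a := ((z : ℤ) : vs σ)) (by
    rw [h]
    exact (map_intCast (algebraMap (vs σ) k) z).symm)
  exact ⟨t, by rw [ht, map_intCast]⟩

/-- The norm of `x ^ M - ρ` modulo `x ^ M - θ`. -/
theorem nn_bin {L : Type} [Field L] {M : ℕ} (hM : 0 < M) (θ ρ : L) :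
    Nn (expand L M (X - C θ)) (expand L M (X - C ρ)) = (θ - ρ) ^ M := by
  have m1 : (expand L M (X - C θ)).Monic := (monic_X_sub_C θ).expand hM
  have h1 : expand L M (X - C θ) ∣ expand L M (X - C ρ) - C (θ - ρ) := by
    have h2 : expand L M (X - C ρ) - C (θ - ρ) = expand L M (X - C θ) := by
      simp only [map_sub, expand_X, expand_C]; ring
    rw [h2]
  rw [nn_congr m1 h1, nn_C m1, natDegree_expand, natDegree_X_sub_C, one_mul]

theorem nn_prod {L : Type} [Field L] {f : L[X]} (hf : f.Monic) {n : ℕ} (A : Fin n → L[X]) :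
    Nn f (∏ i, A i) = ∏ i, Nn f (A i) := by
  induction n with
  | zero =>
    rw [Fin.prod_univ_zero, Fin.prod_univ_zero]
    have := nn_C hf (1 : L)
    rwa [C_1, one_pow] at this
  | succ n ih => rw [Fin.prod_univ_succ, Fin.prod_univ_succ, nn_mul hf, ih]

theorem exp_dvd {L : Type} [Field L] (M : ℕ) {f h : L[X]} (h3 : f ∣ h) :
    expand L M f ∣ expand L M h := by
  obtain ⟨g, rfl⟩ := h3
  rw [map_mul]
  exact Dvd.intro _ rfl

/-- From a zero of `h` to a `p`-th power. -/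
theorem core {L : Type} [Field L] {p M n : ℕ} (hpM : p.Coprime M) (hM : 0 < M)
    {h : L[X]} {ρ : Fin n → L} {x : L} (hx : h.eval x = 0) {ε : Fin n → ℕ} (w : L[X])
    (hw : expand L M h ∣ ∏ i, expand L M (X - C (ρ i)) ^ ε i - w ^ p)
    (ha0 : ∏ i, (x - ρ i) ^ ε i ≠ 0) : ∃ y : L, y ^ p = ∏ i, (x - ρ i) ^ ε i := by
  have hf : (expand L M (X - C x)).Monic := (monic_X_sub_C _).expand hM
  have h3 : (X - C x) ∣ h := dvd_iff_isRoot.2 hx
  have h3' : expand L M (X - C x) ∣ expand L M h := exp_dvd M h3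
  have h5 := nn_congr hf (h3'.trans hw)
  rw [nn_prod hf, nn_pow hf] at h5
  have h6 : (∏ i, (x - ρ i) ^ ε i) ^ M = Nn (expand L M (X - C x)) w ^ p := by
    rw [← h5, ← Finset.prod_pow]
    refine Finset.prod_congr rfl fun i _ => ?_
    rw [nn_pow hf, nn_bin hM, ← pow_mul, ← pow_mul, mul_comm]
  have h7 : cl p (∏ i, (x - ρ i) ^ ε i) ^ M = 1 := by
    rw [← cl_pow p ha0, cl_eq_one p (pow_ne_zero _ ha0)]
    exact ⟨_, h6.symm⟩
  exact (cl_eq_one p ha0).1 (one_of_cop (VG_pow p _) hpM h7)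

/-- A product over the `P`-adic integers. -/
theorem int_prod {p n : ℕ} (hp : p.Prime) {ρ : Fin n → ℤ} {x : ℤ_[P]} {θ : ZMod P}
    (hxθ : PadicInt.toZMod x = θ) {ε : Fin n → ℕ}
    (hθ : ∀ y : ZMod P, y ^ p ≠ ∏ i, (θ - (ρ i : ZMod P)) ^ ε i) :
    (∏ i, ((x : ℚ_[P]) - ((ρ i : ℤ) : ℚ_[P])) ^ ε i ≠ 0) ∧
    ∀ y : ℚ_[P], y ^ p ≠ ∏ i, ((x : ℚ_[P]) - ((ρ i : ℤ) : ℚ_[P])) ^ ε i := by
  set a : ℤ_[P] := ∏ i, (x - ((ρ i : ℤ) : ℤ_[P])) ^ ε i with ha
  have ha1 : PadicInt.toZMod a = ∏ i, (θ - (ρ i : ZMod P)) ^ ε i := by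
    rw [ha, map_prod]
    refine Finset.prod_congr rfl fun i _ => ?_
    rw [map_pow, map_sub, hxθ, map_intCast]
  have ha2 : (a : ℚ_[P]) = ∏ i, ((x : ℚ_[P]) - ((ρ i : ℤ) : ℚ_[P])) ^ ε i := by
    have h1 : (PadicInt.Coe.ringHom (p := P)) a =
        ∏ i, (PadicInt.Coe.ringHom (p := P)) ((x - ((ρ i : ℤ) : ℤ_[P])) ^ ε i) := by
      rw [ha, map_prod]
    refine h1.trans (Finset.prod_congr rfl fun i _ => ?_)
    rw [map_pow, map_sub, map_intCast]
    rfl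
  rw [← ha2]
  refine ⟨?_, ?_⟩
  · intro h6
    have h7 : a = 0 := PadicInt.ext (by rw [h6, PadicInt.coe_zero])
    rw [h7, map_zero] at ha1
    exact hθ 0 (by rw [zero_pow hp.ne_zero, ← ha1])
  · intro y hy
    have hy1 : ‖y‖ ≤ 1 := by
      have h8 : ‖y‖ ^ p ≤ 1 := by rw [← norm_pow, hy]; exact a.2
      exact (pow_le_one_iff_of_nonneg (norm_nonneg y) hp.ne_zero).1 h8
    obtain ⟨y', rfl⟩ : ∃ y' : ℤ_[P], (y' : ℚ_[P]) = y := ⟨⟨y, hy1⟩, rfl⟩
    refine hθ (PadicInt.toZMod y') ?_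
    rw [← ha1, ← map_pow]
    congr 1
    exact PadicInt.ext (by rw [PadicInt.coe_pow]; exact hy)

/-- The product of powers of `x ^ M - ρ_i` is not a `p`-th power modulo `h(x ^ M)`. -/
theorem not_pow {k : Type} [Field k] (σ : k →+* ℚ_[P]) {p M n : ℕ} (hp : p.Prime)
    (hpM : p.Coprime M) (hM : 0 < M) {h : ℤ[X]} {ρ : Fin n → ℤ} {θ : ZMod P}
    (h0 : (h.map (Int.castRingHom (ZMod P))).eval θ = 0)
    (h1 : (h.map (Int.castRingHom (ZMod P))).derivative.eval θ ≠ 0) {ε : Fin n → ℕ}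
    (hθ : ∀ y : ZMod P, y ^ p ≠ ∏ i, (θ - (ρ i : ZMod P)) ^ ε i) (w : k[X])
    (hw : (expand ℤ M h).map (Int.castRingHom k) ∣
      ∏ i, expand k M (X - C ((ρ i : ℤ) : k)) ^ ε i - w ^ p) : False := by
  obtain ⟨x, hx, hxθ⟩ := hensel_int h0 h1
  obtain ⟨ha0, ha1⟩ := int_prod hp hxθ hθ
  have e1 : ((expand ℤ M h).map (Int.castRingHom k)).map σ =
      expand ℚ_[P] M (h.map (Int.castRingHom ℚ_[P])) := by
    rw [Polynomial.map_map, RingHom.ext_int (σ.comp (Int.castRingHom k))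
      (Int.castRingHom ℚ_[P]), map_expand]
  have e2 : (∏ i, expand k M (X - C ((ρ i : ℤ) : k)) ^ ε i - w ^ p).map σ =
      ∏ i, expand ℚ_[P] M (X - C ((ρ i : ℤ) : ℚ_[P])) ^ ε i - (w.map σ) ^ p := by
    rw [Polynomial.map_sub, Polynomial.map_prod, Polynomial.map_pow]
    congr 1
    refine Finset.prod_congr rfl fun i _ => ?_
    rw [Polynomial.map_pow, map_expand, Polynomial.map_sub, Polynomial.map_X,
      Polynomial.map_C, map_intCast]
  have h2 : expand ℚ_[P] M (h.map (Int.castRingHom ℚ_[P])) ∣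
      ∏ i, expand ℚ_[P] M (X - C ((ρ i : ℤ) : ℚ_[P])) ^ ε i - (w.map σ) ^ p := by
    rw [← e1, ← e2]
    exact Polynomial.map_dvd σ hw
  have hxQ : (h.map (Int.castRingHom ℚ_[P])).eval (x : ℚ_[P]) = 0 := by
    have e3 : aeval (x : ℚ_[P]) h = ((aeval x h : ℤ_[P]) : ℚ_[P]) := by
      have := map_aeval_eq_aeval_map (S := ℤ_[P]) (T := ℤ) (U := ℚ_[P]) (φ := RingHom.id ℤ)
        (ψ := PadicInt.Coe.ringHom) (RingHom.ext_int _ _) h x
      rw [Polynomial.map_id] at this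
      exact this.symm
    rw [hx, PadicInt.coe_zero, aeval_def, algebraMap_int_eq] at e3
    rw [eval_map]
    exact e3
  obtain ⟨y, hy⟩ := core hpM hM hxQ (w.map σ) h2 ha0
  exact ha1 y hy

end prime

end Pool.Agent.Y160.T6
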