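import Pool.Agent.Y160.SL.Many
import Pool.Agent.Y160.T6.Loc
import Pool.Agent.Y160.T6.Conc
import Pool.Agent.Y160.T3.Pt

/-!
# From the tests modulo primes to the conclusions over the field `k`
-/

set_option autoImplicit false
set_option linter.all false

open Polynomial

namespace Pool.Agent.Y160.T6

open Pool.Agent.Y160.SL (manyR manyU manyB manyC manyG manyT ManyWorks IrrOver GenConcl towSurf coefG coefB
  coefC overField)
open Pool.Agent.Y160.T3 (GoodP mF bF irr_up irr_expand towSurf_map coefG_map coefB_map coefG_monic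
  coefG_natDegree coefB_natDegree)
open Pool.Agent.Y160.T4 (PR irr_lin)
open Pool.Agent.Y160.EN (ManyD St_cond)

section maps

variable {A B : Type} [CommRing A] [CommRing B] (f : A →+* B) {n D r : ℕ}
  (v : Fin (n + (D + (r + 2))) → A)

theorem manyU_map : (manyU n D r v).map f = manyU n D r (fun i => f (v i)) := coefG_map f _

theorem manyB_map : (manyB n D r v).map f = manyB n D r (fun i => f (v i)) := coefB_map f _

theorem manyG_map : (manyG n D r v).map f = manyG n D r (fun i => f (v i)) := by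
  unfold manyG
  rw [Polynomial.map_mul, manyU_map, Polynomial.map_prod]
  congr 1
  refine Finset.prod_congr rfl fun i _ => ?_
  rw [Polynomial.map_sub, Polynomial.map_X, Polynomial.map_C]
  rfl

theorem manyH_map (q : ℕ) : (manyG n D r v + manyB n D r v ^ q).map f =
    manyG n D r (fun i => f (v i)) + manyB n D r (fun i => f (v i)) ^ q := by
  rw [Polynomial.map_add, Polynomial.map_pow, manyG_map, manyB_map]

theorem manyU_monic [Nontrivial A] : (manyU n D r v).Monic := coefG_monic _

theorem manyU_natDegree [Nontrivial A] : (manyU n D r v).natDegree = D := coefG_natDegree _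

theorem manyB_natDegree : (manyB n D r v).natDegree ≤ r := coefB_natDegree _

theorem prod_monic [Nontrivial A] {n : ℕ} (ρ : Fin n → A) : (∏ i, (X - C (ρ i))).Monic :=
  monic_prod_of_monic _ _ fun i _ => monic_X_sub_C (ρ i)

theorem prod_natDegree [Nontrivial A] {n : ℕ} (ρ : Fin n → A) :
    (∏ i, (X - C (ρ i))).natDegree = n := by
  rw [natDegree_prod_of_monic _ _ fun i _ => monic_X_sub_C (ρ i)]
  simp

theorem manyG_monic [Nontrivial A] : (manyG n D r v).Monic := (prod_monic _).mul (manyU_monic v)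

theorem manyG_natDegree [Nontrivial A] : (manyG n D r v).natDegree = n + D := by
  unfold manyG
  rw [(prod_monic _).natDegree_mul (manyU_monic v), prod_natDegree, manyU_natDegree]

theorem manyH_monic [Nontrivial A] {q : ℕ} (hqr : q * r < n + D) :
    (manyG n D r v + manyB n D r v ^ q).Monic := by
  refine (manyG_monic v).add_of_left ?_
  refine degree_lt_degree ?_
  rw [manyG_natDegree]
  exact (natDegree_pow_le.trans (Nat.mul_le_mul le_rfl (manyB_natDegree v))).trans_lt hqr

end maps

/-- A test for the residues modulo `P` of the vector `v`, for some `P`. -/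
def Some (k : Type) [Field k] {N : ℕ} (v : Fin N → ℤ)
    (T : ∀ (F : Type) [Field F], (Fin N → F) → Prop) : Prop :=
  ∃ (P : ℕ) (_ : Fact P.Prime), Nonempty (k →+* ℚ_[P]) ∧ T (ZMod P) (fun i => (v i : ZMod P))

/-- The tests. -/
def TU (R n D r : ℕ) (F : Type) [Field F] (v : Fin (n + (D + (r + 2))) → F) : Prop :=
  GoodP R (manyU n D r v)

def TH (q R n D r : ℕ) (F : Type) [Field F] (v : Fin (n + (D + (r + 2))) → F) : Prop :=
  GoodP R (manyG n D r v + manyB n D r v ^ q)

def TC (n D r : ℕ) (F : Type) [Field F] (v : Fin (n + (D + (r + 2))) → F) : Prop :=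
  manyC n D r v ≠ 0

def TP (R n D r : ℕ) (i : Fin n) (F : Type) [Field F] (v : Fin (n + (D + (r + 2))) → F) : Prop :=
  PR R (manyR n D r v i)

def TR (p n D r : ℕ) (i : Fin n) (ε : Fin n → Fin p) (F : Type) [Field F]
    (v : Fin (n + (D + (r + 2))) → F) : Prop :=
  ∀ y : F, y ^ p ≠ (manyU n D r v).eval (manyR n D r v i) *
    ∏ j ∈ Finset.univ.erase i, (manyR n D r v i - manyR n D r v j) ^ (ε j : ℕ)

def TS (p q n D r : ℕ) (ε : Fin n → Fin p) (F : Type) [Field F]
    (v : Fin (n + (D + (r + 2))) → F) : Prop :=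
  (∃ i, ¬ p ∣ (ε i : ℕ)) → ∃ θ : F, (manyG n D r v + manyB n D r v ^ q).eval θ = 0 ∧
    (derivative (manyG n D r v + manyB n D r v ^ q)).eval θ ≠ 0 ∧ (manyB n D r v).eval θ ≠ 0 ∧
    ∀ y : F, y ^ p ≠ ∏ i, (θ - manyR n D r v i) ^ (ε i : ℕ)

/-- Reduction of the exponents modulo `p`. -/
theorem red_exp {F ι : Type} [Field F] {p : ℕ} (s : Finset ι) (a : ι → F) (ha : ∀ i ∈ s, a i ≠ 0)
    (ε : ι → ℕ) {x y : F} (h : y ^ p = x * ∏ i ∈ s, a i ^ ε i) :
    ∃ z : F, z ^ p = x * ∏ i ∈ s, a i ^ (ε i % p) := by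
  refine ⟨y / ∏ i ∈ s, a i ^ (ε i / p), ?_⟩
  have h0 : (∏ i ∈ s, a i ^ (ε i / p)) ^ p ≠ 0 :=
    pow_ne_zero _ (Finset.prod_ne_zero_iff.2 fun i hi => pow_ne_zero _ (ha i hi))
  rw [div_pow, h, div_eq_iff h0, mul_assoc, ← Finset.prod_pow, ← Finset.prod_mul_distrib]
  congr 1
  refine Finset.prod_congr rfl fun i _ => ?_
  rw [← pow_mul, ← pow_add]
  congr 1
  rw [mul_comm, Nat.mod_add_div]

section works

variable {k : Type} [Field k]

theorem works_of (hSt : St_cond) [PerfectField k] {p q s n D r R : ℕ} {ζ η : k} (hp : p.Prime)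
    (hq : q = p ^ (s + 1)) (hn : 0 < n) (hD : 2 ≤ D) (hqr : q * r < n + D) (hcop : p.Coprime (n + D))
    (hR : Odd R) (hpR : p.Coprime R) (hζ : IsPrimitiveRoot ζ q) (hη : η ^ p = -1)
    {v : Fin (n + (D + (r + 2))) → ℤ} (tu : Some k v (TU R n D r)) (th : Some k v (TH q R n D r))
    (tc : Some k v (TC n D r)) (tp : ∀ i, Some k v (TP R n D r i))
    (tr : ∀ i ε, Some k v (TR p n D r i ε)) (ts : ∀ ε, Some k v (TS p q n D r ε)) :
    ManyWorks p q n D r R k v := by
  have hMp : ∀ M e : ℕ, M ∣ R ^ e → Odd M ∧ 0 < M ∧ p.Coprime M ∧ ∀ N : ℕ, N.Prime → N ∣ M → N ∣ R := by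
    intro M e hMe
    have h1 : Odd M := hR.pow.of_dvd_nat hMe
    exact ⟨h1, h1.pos, (hpR.pow_right e).coprime_dvd_right hMe,
      fun N hN hNM => hN.dvd_of_dvd_pow (hNM.trans hMe)⟩
  haveI hCZ : CharZero k := by
    obtain ⟨P, _, ⟨σ⟩, _⟩ := tc
    exact ⟨fun a b h => by
      have h0 := congrArg σ h
      rw [map_natCast, map_natCast] at h0
      exact_mod_cast h0⟩
  have hcast : ∀ (P : ℕ) [Fact P.Prime] (z : ℤ), (z : ZMod P) ≠ 0 → (z : k) ≠ 0 := by
    intro P _ z hz h0
    apply hz
    have : z = 0 := by exact_mod_cast h0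
    rw [this, Int.cast_zero]
  -- irreducibility
  have iρ : ∀ M e : ℕ, M ∣ R ^ e → ∀ i, IrrOver k (expand ℤ M (X - C (manyR n D r v i))) := by
    intro M e hMe i
    obtain ⟨h1, h2, h3, h4⟩ := hMp M e hMe
    obtain ⟨P, _, ⟨σ⟩, ht⟩ := tp i
    refine irr_up σ ((monic_X_sub_C _).expand h2) ?_
    rw [map_expand, Polynomial.map_sub, Polynomial.map_X, Polynomial.map_C]
    exact irr_lin ht h1 h4
  have iu : ∀ M e : ℕ, M ∣ R ^ e → IrrOver k (expand ℤ M (manyU n D r v)) := by
    intro M e hMe
    obtain ⟨h1, h2, h3, h4⟩ := hMp M e hMe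
    obtain ⟨P, _, ⟨σ⟩, ht⟩ := tu
    refine irr_up σ ((manyU_monic _).expand h2) ?_
    rw [map_expand, manyU_map]
    exact irr_expand (manyU_monic _) ht.1 h1 fun N hN hNM => ht.2 N hN (h4 N hN hNM)
  have ih : ∀ M e : ℕ, M ∣ R ^ e → IrrOver k (expand ℤ M (manyG n D r v + manyB n D r v ^ q)) := by
    intro M e hMe
    obtain ⟨h1, h2, h3, h4⟩ := hMp M e hMe
    obtain ⟨P, _, ⟨σ⟩, ht⟩ := th
    refine irr_up σ ((manyH_monic _ hqr).expand h2) ?_
    rw [map_expand, manyH_map]
    exact irr_expand (manyH_monic _ hqr) ht.1 h1 fun N hN hNM => ht.2 N hN (h4 N hN hNM)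
  have hc : ((manyC n D r v : ℤ) : k) ≠ 0 := by
    obtain ⟨P, _, -, ht⟩ := tc
    exact hcast P _ ht
  have e1 : ∀ M : ℕ, (expand ℤ M (manyG n D r v)).map (Int.castRingHom k) =
      expand k M ((∏ i, (X - C ((manyR n D r v i : ℤ) : k))) *
        (manyU n D r v).map (Int.castRingHom k)) := by
    intro M
    rw [map_expand]
    congr 1
    unfold manyG
    rw [Polynomial.map_mul, Polynomial.map_prod]
    congr 1
    refine Finset.prod_congr rfl fun i _ => ?_
    rw [Polynomial.map_sub, Polynomial.map_X, Polynomial.map_C]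
    rfl
  have e2 : ∀ M : ℕ, (expand ℤ M (manyG n D r v + manyB n D r v ^ q)).map (Int.castRingHom k) =
      expand k M ((∏ i, (X - C ((manyR n D r v i : ℤ) : k))) *
        (manyU n D r v).map (Int.castRingHom k) + (manyB n D r v).map (Int.castRingHom k) ^ q) := by
    intro M
    rw [map_add, Polynomial.map_add, e1, map_pow, Polynomial.map_pow, map_expand, ← map_pow, ← map_add]
  -- differences
  have hdif : ∀ i j, j ≠ i → ((manyR n D r v i : ℤ) : k) - ((manyR n D r v j : ℤ) : k) ≠ 0 := by
    intro i j hij h0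
    obtain ⟨P, _, -, ht⟩ := tr i (fun _ => ⟨1, hp.one_lt⟩)
    have h1 : (manyR n D r v i : ℤ) - manyR n D r v j = 0 := by exact_mod_cast h0
    refine ht 0 ?_
    rw [zero_pow hp.ne_zero, Finset.prod_eq_zero (Finset.mem_erase.2 ⟨hij, Finset.mem_univ j⟩),
      mul_zero]
    have h2 : manyR n D r (fun i => ((v i : ℤ) : ZMod P)) i -
        manyR n D r (fun i => ((v i : ℤ) : ZMod P)) j =
        ((manyR n D r v i - manyR n D r v j : ℤ) : ZMod P) := by
      rw [Int.cast_sub]; rfl
    rw [h2, h1, Int.cast_zero, pow_one]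
  have hMD : ∀ M e : ℕ, M ∣ R ^ e → ManyD p q M n (fun i => ((manyR n D r v i : ℤ) : k))
      ((manyU n D r v).map (Int.castRingHom k)) ((manyB n D r v).map (Int.castRingHom k)) := by
    intro M e hMe
    obtain ⟨h1, h2, h3, h4⟩ := hMp M e hMe
    have hud : ((manyU n D r v).map (Int.castRingHom k)).natDegree = D := by
      rw [manyU_map, manyU_natDegree]
    refine
      { n0 := hn
        um := (manyU_monic v).map _
        ud := by rw [hud]; exact hD
        cop := by rw [hud]; exact hcop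
        deg := ?_
        neg := ⟨η, hη⟩
        iρ := ?_
        iu := ?_
        ih := ?_
        tR := ?_
        tS := ?_ }
    · rw [hud]
      have h5 : ((manyB n D r v).map (Int.castRingHom k)).natDegree ≤ r := by
        rw [manyB_map]; exact manyB_natDegree _
      exact (Nat.mul_le_mul le_rfl h5).trans_lt hqr
    · intro i
      have h5 := iρ M e hMe i
      unfold IrrOver at h5
      rw [map_expand, Polynomial.map_sub, Polynomial.map_X, Polynomial.map_C] at h5
      exact h5
    · have h5 := iu M e hMe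
      unfold IrrOver at h5
      rwa [map_expand] at h5
    · have h5 := ih M e hMe
      unfold IrrOver at h5
      rwa [e2] at h5
    · intro i ε y hy
      obtain ⟨z, hz⟩ := red_exp (Finset.univ.erase i)
        (fun j => ((manyR n D r v i : ℤ) : k) - ((manyR n D r v j : ℤ) : k))
        (fun j hj => hdif i j (Finset.mem_erase.1 hj).1) ε hy
      obtain ⟨P, _, ⟨σ⟩, ht⟩ := tr i (fun j => ⟨ε j % p, Nat.mod_lt _ hp.pos⟩)
      have h5 : ((manyU n D r v).map (Int.castRingHom k)).eval ((manyR n D r v i : ℤ) : k) *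
          ∏ j ∈ Finset.univ.erase i, (((manyR n D r v i : ℤ) : k) - ((manyR n D r v j : ℤ) : k)) ^ (ε j % p) =
          (((manyU n D r v).eval (manyR n D r v i) *
            ∏ j ∈ Finset.univ.erase i, (manyR n D r v i - manyR n D r v j) ^ (ε j % p) : ℤ) : k) := by
        rw [Int.cast_mul, Int.cast_prod]
        congr 1
        · have := eval_map_apply (Int.castRingHom k) (p := manyU n D r v) (manyR n D r v i)
          rw [eq_intCast, eq_intCast] at this
          exact this
        · refine Finset.prod_congr rfl fun j _ => ?_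
          rw [Int.cast_pow, Int.cast_sub]
      obtain ⟨t, ht'⟩ := int_pow σ hp.pos (hz.trans h5)
      refine ht t (ht'.trans ?_)
      rw [Int.cast_mul, Int.cast_prod]
      congr 1
      · have := eval_map_apply (Int.castRingHom (ZMod P)) (p := manyU n D r v) (manyR n D r v i)
        rw [eq_intCast, eq_intCast, manyU_map] at this
        exact this.symm
      · refine Finset.prod_congr rfl fun j _ => ?_
        rw [Int.cast_pow, Int.cast_sub]
        rfl
    · rintro ε ⟨w, hw⟩
      by_contra hne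
      rw [not_forall] at hne
      obtain ⟨P, _, ⟨σ⟩, ht⟩ := ts (fun j => ⟨ε j % p, Nat.mod_lt _ hp.pos⟩)
      obtain ⟨θ, t0, t1, t2, t3⟩ := ht (by
        obtain ⟨i, hi⟩ := hne
        refine ⟨i, fun h5 => hi ?_⟩
        have h5 : p ∣ ε i % p := h5
        exact (Nat.dvd_mod_iff dvd_rfl).1 h5)
      have hθρ : ∀ i, θ - manyR n D r (fun i => ((v i : ℤ) : ZMod P)) i ≠ 0 := by
        intro i h5
        have h6 : (manyG n D r (fun i => ((v i : ℤ) : ZMod P))).eval θ = 0 := by
          unfold manyG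
          rw [eval_mul, eval_prod, Finset.prod_eq_zero (Finset.mem_univ i), zero_mul]
          rw [eval_sub, eval_X, eval_C]
          exact h5
        rw [eval_add, h6, zero_add, eval_pow] at t0
        exact pow_ne_zero _ t2 t0
      refine not_pow (h := manyG n D r v + manyB n D r v ^ q) (ρ := manyR n D r v) (θ := θ) σ hp h3 h2
        ?_ ?_ (ε := ε) ?_ w ?_
      · rw [manyH_map]; exact t0
      · rw [manyH_map]; exact t1
      · intro y hy
        obtain ⟨z, hz⟩ := red_exp (x := 1) Finset.univ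
          (fun j => θ - manyR n D r (fun i => ((v i : ℤ) : ZMod P)) j) (fun j _ => hθρ j) ε (by
            rw [one_mul]; exact hy)
        rw [one_mul] at hz
        exact t3 z hz
      · rw [e2]
        exact hw
  refine ⟨?_, fun M e hMe => ⟨iρ M e hMe, iu M e hMe, ih M e hMe⟩, ?_⟩
  · intro h0
    apply hc
    rw [h0, Int.cast_zero]
  · intro d M e hd hMe k'' K L _ _ _ _ _ _ _ _ _ hT
    obtain ⟨h1, h2, h3, h4⟩ := hMp M e hMe
    have h6 := conclM (k' := k'') (K := K) (F := L) hSt hp hq hζ h3 (hMD M e hMe) hc hd hT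
    have e3 : (expand ℤ M (manyB n D r v)).map (Int.castRingHom k) =
        expand k M ((manyB n D r v).map (Int.castRingHom k)) := by rw [map_expand]
    unfold overField
    rw [towSurf_map, e1, e3]
    exact h6

end works

end Pool.Agent.Y160.T6
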