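import Pool.Agent.Y160.T3.Pt
import Pool.Agent.Y160.T2.Sieve

/-!
# Sets of integer vectors of density zero, and fibres of homomorphisms
-/

set_option autoImplicit false
set_option linter.all false

open Filter Topology

namespace Pool.Agent.Y160.T6

open Pool.Agent.Y160.T2 (sieve)
open Pool.Agent.Y160.T3 (place_R)

/-- The set `S` has density zero. -/
def Zd {N : ℕ} (S : Set (Fin N → ℤ)) : Prop :=
  Tendsto (fun H : ℕ => (({v : Fin N → ℤ | (∀ i, |v i| ≤ (H : ℤ)) ∧ v ∈ S}.ncard : ℕ) : ℝ) /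
    (2 * (H : ℝ) + 1) ^ N) atTop (𝓝 0)

theorem box_fin {N : ℕ} (S : Set (Fin N → ℤ)) (H : ℕ) :
    {v : Fin N → ℤ | (∀ i, |v i| ≤ (H : ℤ)) ∧ v ∈ S}.Finite := by
  refine (Set.Finite.pi' (fun _ : Fin N => Set.finite_Icc (-(H : ℤ)) (H : ℤ))).subset ?_
  rintro v ⟨hv, -⟩ i
  exact Set.mem_Icc.2 (abs_le.1 (hv i))

theorem Zd.mono {N : ℕ} {S T : Set (Fin N → ℤ)} (h : Zd T) (hST : S ⊆ T) : Zd S := by
  refine squeeze_zero (fun H => by positivity) (fun H => ?_) h
  refine div_le_div_of_nonneg_right ?_ (by positivity)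
  have h1 : {v : Fin N → ℤ | (∀ i, |v i| ≤ (H : ℤ)) ∧ v ∈ S} ⊆
      {v : Fin N → ℤ | (∀ i, |v i| ≤ (H : ℤ)) ∧ v ∈ T} := fun v hv => ⟨hv.1, hST hv.2⟩
  exact_mod_cast Set.ncard_le_ncard h1 (box_fin T H)

theorem Zd.union {N : ℕ} {S T : Set (Fin N → ℤ)} (hS : Zd S) (hT : Zd T) : Zd (S ∪ T) := by
  have h := hS.add hT
  rw [add_zero] at h
  refine squeeze_zero (fun H => by positivity) (fun H => ?_) h
  rw [← add_div]
  refine div_le_div_of_nonneg_right ?_ (by positivity)
  have h1 : {v : Fin N → ℤ | (∀ i, |v i| ≤ (H : ℤ)) ∧ v ∈ S ∪ T} ⊆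
      {v : Fin N → ℤ | (∀ i, |v i| ≤ (H : ℤ)) ∧ v ∈ S} ∪
      {v : Fin N → ℤ | (∀ i, |v i| ≤ (H : ℤ)) ∧ v ∈ T} := by
    rintro v ⟨h1, h2 | h2⟩
    · exact Or.inl ⟨h1, h2⟩
    · exact Or.inr ⟨h1, h2⟩
  have h2 := (Set.ncard_le_ncard h1 ((box_fin S H).union (box_fin T H))).trans
    (Set.ncard_union_le _ _)
  exact_mod_cast h2

theorem Zd.empty {N : ℕ} : Zd (∅ : Set (Fin N → ℤ)) := by
  unfold Zd
  simp

theorem Zd.iUnion {N : ℕ} {ι : Type} [Finite ι] {S : ι → Set (Fin N → ℤ)} (h : ∀ i, Zd (S i)) :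
    Zd (⋃ i, S i) := by
  classical
  haveI := Fintype.ofFinite ι
  have key : ∀ s : Finset ι, Zd (⋃ i ∈ s, S i) := by
    intro s
    induction s using Finset.induction_on with
    | empty => simpa using Zd.empty
    | insert a s ha ih =>
      rw [Finset.set_biUnion_insert]
      exact (h a).union ih
  have := key Finset.univ
  simpa using this

/-- The vectors whose residues fail a test with a positive proportion for all primes. -/
theorem zd_of {N p R : ℕ} (hp : 0 < p) (hR : 0 < R) (k : Type) [Field k] [NumberField k]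
    (T : ∀ (F : Type) [Field F], (Fin N → F) → Prop)
    (h : ∃ K₀ N₀ : ℕ, ∀ (F : Type) [Field F] [Fintype F], p ∣ Fintype.card F - 1 →
      R ∣ Fintype.card F - 1 → N₀ ≤ Fintype.card F →
      Fintype.card F ^ N ≤ K₀ * {v : Fin N → F | T F v}.ncard) :
    Zd {v : Fin N → ℤ | ∀ (P : ℕ) [Fact P.Prime], Nonempty (k →+* ℚ_[P]) →
      ¬ T (ZMod P) (fun i => (v i : ZMod P))} := by
  classical
  obtain ⟨K₀, N₀, hK⟩ := h
  refine sieve (D := K₀ + 1) (Nat.succ_pos _) _ fun B => ?_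
  obtain ⟨P, hP, hPB, hσ, hRP⟩ := place_R k (R := p * R) (Nat.mul_pos hp hR) (B + N₀)
  haveI : Fintype (ZMod P) := ZMod.fintype P
  have hcard : Fintype.card (ZMod P) = P := ZMod.card P
  have h1 := hK (ZMod P) (by rw [hcard]; exact (Dvd.intro _ rfl).trans hRP)
    (by rw [hcard]; exact (Dvd.intro_left _ rfl).trans hRP) (by rw [hcard]; omega)
  rw [hcard] at h1
  set A : Set (Fin N → ZMod P) := {v | T (ZMod P) v} with hA
  have hfin : A.Finite := Set.toFinite _
  refine ⟨P, by omega, hP.out, hfin.toFinset, ?_, ?_⟩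
  · rw [Set.ncard_eq_toFinset_card A hfin] at h1
    exact h1.trans (Nat.mul_le_mul (Nat.le_succ _) le_rfl)
  · intro v hv hmem
    rw [Set.Finite.mem_toFinset] at hmem
    exact hv P hσ hmem

/-- The preimage of a set under a surjective homomorphism. -/
theorem pull {X Y : Type} [AddCommGroup X] [Fintype X] [AddCommGroup Y] [Fintype Y] (f : X →+ Y)
    (hf : Function.Surjective f) {S : Set Y} {K : ℕ} (h : Fintype.card Y ≤ K * S.ncard) :
    Fintype.card X ≤ K * (f ⁻¹' S).ncard := by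
  classical
  obtain ⟨c, hc⟩ : ∃ c : ℕ, ∀ y : Y, (Finset.univ.filter fun x => f x = y).card = c :=
    ⟨_, fun y => AddMonoidHom.card_fiber_eq_of_mem_range f (hf y) (hf 0)⟩
  have h1 : ∀ s : Finset Y, (Finset.univ.filter fun x => f x ∈ s).card = s.card * c := by
    intro s
    have h0 := Finset.card_eq_sum_card_fiberwise (f := f) (s := Finset.univ.filter fun x => f x ∈ s)
      (t := s) (fun x hx => by simpa using hx)
    rw [h0, Finset.sum_congr rfl (g := fun _ => c), Finset.sum_const, smul_eq_mul]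
    intro y hy
    rw [← hc y, Finset.filter_filter]
    congr 1
    ext x
    simp only [Finset.mem_filter, Finset.mem_univ, true_and]
    constructor
    · rintro ⟨-, h⟩; exact h
    · rintro rfl; exact ⟨hy, rfl⟩
  have h2 : Fintype.card X = Fintype.card Y * c := by
    have := h1 Finset.univ
    rwa [Finset.filter_true_of_mem (fun _ _ => Finset.mem_univ _), Finset.card_univ,
      Finset.card_univ] at this
  have hfin : S.Finite := Set.toFinite _
  have h3 : (f ⁻¹' S).ncard = S.ncard * c := by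
    rw [Set.ncard_eq_toFinset_card S hfin, ← h1, ← Set.ncard_coe_finset]
    congr 1
    ext x
    rw [Finset.mem_coe, Finset.mem_filter, Set.Finite.mem_toFinset, Set.mem_preimage]
    exact ⟨fun hx => ⟨Finset.mem_univ _, hx⟩, fun hx => hx.2⟩
  rw [h2, h3, ← mul_assoc]
  exact Nat.mul_le_mul h le_rfl

end Pool.Agent.Y160.T6
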