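import Pool.Agent.Y160.EN.Stm
import Pool.Agent.Y160.T6.Zd
import Pool.Agent.Y160.T6.Pt

/-!
# Almost all members of the family with `n` linear factors
-/

set_option autoImplicit false
set_option linter.all false

open Polynomial Filter Topology

namespace Pool.Agent.Y160.T6

open Pool.Agent.Y160.SL (manyR manyU manyB manyC manyG manyT ManyWorks)
open Pool.Agent.Y160.T3 (GoodP mF bF irr_count)
open Pool.Agent.Y160.T4 (PR pr_count)
open Pool.Agent.Y160.EN (St_cond St_irr St_R St_S)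

section maps

variable (F : Type) [Field F] (n D r : ℕ)

/-- The coordinates of the vector. -/
def f3 : (Fin (n + (D + (r + 2))) → F) →+ (Fin n → F) × (Fin D → F) × (Fin (r + 1) → F) where
  toFun v := (fun i => v (Fin.castAdd (D + (r + 2)) i), fun i => v (Fin.natAdd n (Fin.castAdd (r + 2) i)),
    fun j => v (Fin.natAdd n (Fin.natAdd D j.castSucc)))
  map_zero' := rfl
  map_add' _ _ := rfl

theorem f3_surj : Function.Surjective (f3 F n D r) := by
  rintro ⟨ρ, a, w⟩
  refine ⟨Fin.append ρ (Fin.append a (Fin.snoc (α := fun _ => F) w 0)), ?_⟩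
  refine Prod.ext ?_ (Prod.ext ?_ ?_)
  · funext i
    exact Fin.append_left _ _ i
  · funext i
    show Fin.append ρ (Fin.append a (Fin.snoc (α := fun _ => F) w 0))
      (Fin.natAdd n (Fin.castAdd (r + 2) i)) = a i
    rw [Fin.append_right, Fin.append_left]
  · funext j
    show Fin.append ρ (Fin.append a (Fin.snoc (α := fun _ => F) w 0))
      (Fin.natAdd n (Fin.natAdd D j.castSucc)) = w j
    rw [Fin.append_right, Fin.append_right]
    exact Fin.snoc_castSucc (α := fun _ => F) _ _ j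

def f2 : (Fin (n + (D + (r + 2))) → F) →+ (Fin n → F) × (Fin D → F) where
  toFun v := (fun i => v (Fin.castAdd (D + (r + 2)) i), fun i => v (Fin.natAdd n (Fin.castAdd (r + 2) i)))
  map_zero' := rfl
  map_add' _ _ := rfl

theorem f2_surj : Function.Surjective (f2 F n D r) := by
  rintro ⟨ρ, a⟩
  obtain ⟨v, hv⟩ := f3_surj F n D r (ρ, a, 0)
  have h1 : (f3 F n D r v).1 = ρ := by rw [hv]
  have h2 : (f3 F n D r v).2.1 = a := by rw [hv]
  exact ⟨v, Prod.ext h1 h2⟩

def f1 : (Fin (n + (D + (r + 2))) → F) →+ (Fin D → F) where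
  toFun v := fun i => v (Fin.natAdd n (Fin.castAdd (r + 2) i))
  map_zero' := rfl
  map_add' _ _ := rfl

theorem f1_surj : Function.Surjective (f1 F n D r) := by
  intro a
  obtain ⟨v, hv⟩ := f3_surj F n D r (0, a, 0)
  have h2 : (f3 F n D r v).2.1 = a := by rw [hv]
  exact ⟨v, h2⟩

/-- A coordinate. -/
def f0 (i : Fin (n + (D + (r + 2)))) : (Fin (n + (D + (r + 2))) → F) →+ F where
  toFun v := v i
  map_zero' := rfl
  map_add' _ _ := rfl

theorem f0_surj (i : Fin (n + (D + (r + 2)))) : Function.Surjective (f0 F n D r i) := fun y =>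
  ⟨fun _ => y, rfl⟩

end maps

/-- The form of the counting results. -/
def CntT (p R N : ℕ) (T : ∀ (F : Type) [Field F], (Fin N → F) → Prop) : Prop :=
  ∃ K₀ N₀ : ℕ, ∀ (F : Type) [Field F] [Fintype F], p ∣ Fintype.card F - 1 →
      R ∣ Fintype.card F - 1 → N₀ ≤ Fintype.card F →
      Fintype.card F ^ N ≤ K₀ * {v : Fin N → F | T F v}.ncard

section counts

variable {p q R n D r : ℕ}

theorem cU (hD : 2 ≤ D) (hR : Odd R) : CntT p R (n + (D + (r + 2))) (TU R n D r) := by
  classical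
  refine ⟨2 * (R * D), 2 * (R * D) + 2, ?_⟩
  intro F _ _ hp hRF hN
  have h := irr_count (m := D) (by omega) hR F hRF hN
  have h1 : Fintype.card (Fin D → F) ≤ 2 * (R * D) *
      {a : Fin D → F | GoodP R (mF a)}.ncard := by
    rw [Fintype.card_fun, Fintype.card_fin]
    refine h.trans (Nat.mul_le_mul le_rfl (le_of_eq ?_))
    rw [← Set.ncard_coe_finset]
    congr 1
    ext a
    simp
  have h2 := pull (f1 F n D r) (f1_surj F n D r) h1
  rw [Fintype.card_fun, Fintype.card_fin] at h2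
  exact h2

theorem cH (hI : St_irr) (hn : 0 < n) (hD : 2 ≤ D) (hR : Odd R) (hq : 0 < q) (hnr : n ≤ r + 1)
    (hqr : q * r < n + D) (hcop : q.Coprime (R * (n + D))) :
    CntT p R (n + (D + (r + 2))) (TH q R n D r) := by
  obtain ⟨K₀, N₀, h⟩ := hI n D r q R hR hq hD hn hnr hqr hcop
  refine ⟨K₀, N₀, ?_⟩
  intro F _ _ hp hRF hN
  have h1 := h F hRF hN
  have h2 : Fintype.card ((Fin n → F) × (Fin D → F) × (Fin (r + 1) → F)) =
      Fintype.card F ^ (n + D + (r + 1)) := by
    rw [Fintype.card_prod, Fintype.card_prod, Fintype.card_fun, Fintype.card_fun, Fintype.card_fun,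
      Fintype.card_fin, Fintype.card_fin, Fintype.card_fin, ← pow_add, ← pow_add, add_assoc]
  rw [← h2] at h1
  have h3 := pull (f3 F n D r) (f3_surj F n D r) h1
  rw [Fintype.card_fun, Fintype.card_fin] at h3
  exact h3

theorem cC : CntT p R (n + (D + (r + 2))) (TC n D r) := by
  classical
  refine ⟨2, 2, ?_⟩
  intro F _ _ hp hRF hN
  have h1 : Fintype.card F ≤ 2 * {c : F | c ≠ 0}.ncard := by
    have e1 : {c : F | c ≠ 0} = ((Finset.univ.erase (0 : F) : Finset F) : Set F) := by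
      ext c; simp
    rw [e1, Set.ncard_coe_finset, Finset.card_erase_of_mem (Finset.mem_univ _), Finset.card_univ]
    omega
  have h2 := pull (f0 F n D r (Fin.natAdd n (Fin.natAdd D (Fin.last (r + 1)))))
    (f0_surj F n D r _) h1
  rw [Fintype.card_fun, Fintype.card_fin] at h2
  exact h2

theorem cP (hR : Odd R) (i : Fin n) : CntT p R (n + (D + (r + 2))) (TP R n D r i) := by
  classical
  refine ⟨2 * R, 2, ?_⟩
  intro F _ _ hp hRF hN
  have h0 := pr_count hR.pos F hRF
  have h1 : Fintype.card F ≤ 2 * R * {c : F | PR R c}.ncard := by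
    have e1 : {c : F | PR R c} = ((Finset.univ.filter fun c : F => PR R c : Finset F) : Set F) := by
      ext c; simp
    rw [e1, Set.ncard_coe_finset, mul_assoc]
    have h2 : (Finset.univ.filter fun c : F => PR R c).card =
      (Finset.univ.filter fun c : F => PR R c).card := rfl
    omega
  have h2 := pull (f0 F n D r (Fin.castAdd (D + (r + 2)) i)) (f0_surj F n D r _) h1
  rw [Fintype.card_fun, Fintype.card_fin] at h2
  exact h2

theorem cR (hS : St_R) (hp : p.Prime) (hD : 2 ≤ D) (i : Fin n) (ε : Fin n → Fin p) :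
    CntT p R (n + (D + (r + 2))) (TR p n D r i ε) := by
  obtain ⟨K₀, N₀, h⟩ := hS n D p hp (by omega)
  refine ⟨K₀, N₀, ?_⟩
  intro F _ _ hpF hRF hN
  have h1 := h F hpF hN i (fun j => (ε j : ℕ))
  have h2 : Fintype.card ((Fin n → F) × (Fin D → F)) = Fintype.card F ^ (n + D) := by
    rw [Fintype.card_prod, Fintype.card_fun, Fintype.card_fun, Fintype.card_fin, Fintype.card_fin,
      ← pow_add]
  rw [← h2] at h1
  have h3 := pull (f2 F n D r) (f2_surj F n D r) h1
  rw [Fintype.card_fun, Fintype.card_fin] at h3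
  exact h3

theorem cS (hS : St_S) (hp : p.Prime) (hD : 2 ≤ D) (hq : 0 < q) (hqr : q * r < n + D)
    (ε : Fin n → Fin p) : CntT p R (n + (D + (r + 2))) (TS p q n D r ε) := by
  obtain ⟨K₀, N₀, h⟩ := hS n D r p q hp hq hD hqr
  refine ⟨K₀ + 1, N₀, ?_⟩
  intro F _ _ hpF hRF hN
  by_cases hε : ∃ i, ¬ p ∣ (ε i : ℕ)
  · have h1 := h F hpF hN (fun j => (ε j : ℕ)) hε
    have h2 : Fintype.card ((Fin n → F) × (Fin D → F) × (Fin (r + 1) → F)) =
        Fintype.card F ^ (n + D + (r + 1)) := by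
      rw [Fintype.card_prod, Fintype.card_prod, Fintype.card_fun, Fintype.card_fun, Fintype.card_fun,
        Fintype.card_fin, Fintype.card_fin, Fintype.card_fin, ← pow_add, ← pow_add, add_assoc]
    rw [← h2] at h1
    have h3 := pull (f3 F n D r) (f3_surj F n D r) h1
    rw [Fintype.card_fun, Fintype.card_fin] at h3
    refine h3.trans (Nat.mul_le_mul (Nat.le_succ _) (Set.ncard_le_ncard ?_ (Set.toFinite _)))
    intro v hv _
    exact hv
  · have h1 : {v : Fin (n + (D + (r + 2))) → F | TS p q n D r ε F v} = Set.univ := by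
      ext v
      simp only [Set.mem_setOf_eq, Set.mem_univ, iff_true]
      intro h2
      exact absurd h2 hε
    rw [h1, Set.ncard_univ, Nat.card_eq_fintype_card, Fintype.card_fun, Fintype.card_fin]
    exact Nat.le_mul_of_pos_left _ (Nat.succ_pos _)

end counts

/-- The vectors whose residues fail the test for all primes. -/
def Bd (k : Type) [Field k] {N : ℕ} (T : ∀ (F : Type) [Field F], (Fin N → F) → Prop) :
    Set (Fin N → ℤ) :=
  {v | ∀ (P : ℕ) [Fact P.Prime], Nonempty (k →+* ℚ_[P]) → ¬ T (ZMod P) (fun i => (v i : ZMod P))}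

theorem bd_zd {N p R : ℕ} (hp : 0 < p) (hR : 0 < R) (k : Type) [Field k] [NumberField k]
    (T : ∀ (F : Type) [Field F], (Fin N → F) → Prop) (h : CntT p R N T) : Zd (Bd k T) :=
  zd_of hp hR k T h

theorem bd_some (k : Type) [Field k] {N : ℕ} (T : ∀ (F : Type) [Field F], (Fin N → F) → Prop)
    {v : Fin N → ℤ} (hv : v ∉ Bd k T) : Some k v T := by
  by_contra h
  apply hv
  intro P _ hσ hT
  exact h ⟨P, inferInstance, hσ, hT⟩

/-- The set of the exceptions. -/
def Exc (p q n D r R : ℕ) (k : Type) [Field k] : Set (Fin (n + (D + (r + 2))) → ℤ) :=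
  Bd k (TU R n D r) ∪ (Bd k (TH q R n D r) ∪ (Bd k (TC n D r) ∪
      ((⋃ i, Bd k (TP R n D r i)) ∪ ((⋃ x : Fin n × (Fin n → Fin p), Bd k (TR p n D r x.1 x.2)) ∪
        (⋃ ε : Fin n → Fin p, Bd k (TS p q n D r ε))))))

theorem exc_zd (hI : St_irr) (hSR : St_R) (hSS : St_S) {p q n D r R : ℕ}
    (hp : p.Prime) (hq0 : 0 < q) (hn : 0 < n) (hD : 2 ≤ D) (hnr : n ≤ r + 1) (hqr : q * r < n + D)
    (hR : Odd R) (hcop' : q.Coprime (R * (n + D))) (k : Type) [Field k] [NumberField k] :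
    Zd (Exc p q n D r R k) := by
  have a1 := bd_zd hp.pos hR.pos k (TU R n D r) (cU hD hR)
  have a2 := bd_zd hp.pos hR.pos k (TH q R n D r) (cH hI hn hD hR hq0 hnr hqr hcop')
  have a3 := bd_zd hp.pos hR.pos k (TC n D r) cC
  have a4 : Zd (⋃ i, Bd k (TP R n D r i)) :=
    Zd.iUnion fun i => bd_zd hp.pos hR.pos k (TP R n D r i) (cP hR i)
  have a5 : Zd (⋃ x : Fin n × (Fin n → Fin p), Bd k (TR p n D r x.1 x.2)) :=
    Zd.iUnion fun x => bd_zd hp.pos hR.pos k (TR p n D r x.1 x.2) (cR hSR hp hD x.1 x.2)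
  have a6 : Zd (⋃ ε : Fin n → Fin p, Bd k (TS p q n D r ε)) :=
    Zd.iUnion fun ε => bd_zd hp.pos hR.pos k (TS p q n D r ε) (cS hSS hp hD hq0 hqr ε)
  exact a1.union (a2.union (a3.union (a4.union (a5.union a6))))

theorem exc_some {p q n D r R : ℕ} {k : Type} [Field k] {v : Fin (n + (D + (r + 2))) → ℤ}
    (hv : v ∉ Exc p q n D r R k) : Some k v (TU R n D r) ∧ Some k v (TH q R n D r) ∧
      Some k v (TC n D r) ∧ (∀ i, Some k v (TP R n D r i)) ∧ (∀ i ε, Some k v (TR p n D r i ε)) ∧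
      ∀ ε, Some k v (TS p q n D r ε) := by
  unfold Exc at hv
  rw [Set.mem_union, not_or, Set.mem_union, not_or, Set.mem_union, not_or, Set.mem_union, not_or,
    Set.mem_union, not_or] at hv
  obtain ⟨h1, h2, h3, h4, h5, h6⟩ := hv
  refine ⟨bd_some k _ h1, bd_some k _ h2, bd_some k _ h3, fun i => bd_some k _ fun h => ?_,
    fun i ε => bd_some k _ fun h => ?_, fun ε => bd_some k _ fun h => ?_⟩
  · exact h4 (Set.mem_iUnion.2 ⟨i, h⟩)
  · exact h5 (Set.mem_iUnion.2 ⟨(i, ε), h⟩)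
  · exact h6 (Set.mem_iUnion.2 ⟨ε, h⟩)

theorem every (hSt : St_cond) (hI : St_irr) (hSR : St_R) (hSS : St_S) {p s n D r R : ℕ}
    (hp : p.Prime) (hn : 0 < n) (hD : 2 ≤ D) (hnr : n ≤ r + 1) (hqr : p ^ (s + 1) * r < n + D)
    (hcop : p.Coprime (n + D)) (hR : Odd R) (hpR : p.Coprime R) (k : Type) [Field k] [NumberField k]
    {ζ η : k} (hζ : IsPrimitiveRoot ζ (p ^ (s + 1))) (hη : η ^ p = -1) :
    Tendsto (fun H : ℕ => (({v : Fin (n + (D + (r + 2))) → ℤ | (∀ i, |v i| ≤ (H : ℤ)) ∧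
      ¬ ManyWorks p (p ^ (s + 1)) n D r R k v}.ncard : ℕ) : ℝ) /
        (2 * (H : ℝ) + 1) ^ (n + (D + (r + 2)))) atTop (𝓝 0) := by
  have hq0 : 0 < p ^ (s + 1) := Nat.pow_pos hp.pos
  have hcop' : (p ^ (s + 1)).Coprime (R * (n + D)) := (hpR.mul_right hcop).pow_left _
  have key := exc_zd hI hSR hSS hp hq0 hn hD hnr hqr hR hcop' k
  have h2 : {v | ¬ ManyWorks p (p ^ (s + 1)) n D r R k v} ⊆ Exc p (p ^ (s + 1)) n D r R k := by
    intro v hv
    by_contra h
    obtain ⟨h1, h2, h3, h4, h5, h6⟩ := exc_some h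
    exact hv (works_of hSt hp rfl hn hD hqr hcop hR hpR hζ hη h1 h2 h3 h4 h5 h6)
  exact key.mono h2

end Pool.Agent.Y160.T6
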